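import Pool.Agent.W544.PG.Defs8
import Pool.Agent.W565.K3.Ext

/-!
# TP-TSL: slices of Tate classes
-/

set_option autoImplicit false

open Matrix Finset Module

namespace Pool.Agent.W160.TP.TSL

open Pool.Agent.W544.PG
open Pool.Agent.W565.K3.Ext (A ee mk pat mk_some mk_none mk_ee q_ee pat_mk exists_mk mk_inj
  prod_split sum_split mem_A)

noncomputable section

variable {K : Type} [Field K] {n s m : ℕ}

/-- the slice of a form -/
def sl (q : Fin m → Option (Fin s)) (t : (Fin m → Fin s ⊕ Fin n) → K) :
    (Fin (A q).card → Fin n) → K := fun J => t (mk q J)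

theorem pull_mk (R : Matrix (Fin n) (Fin n) K) (t : (Fin m → Fin s ⊕ Fin n) → K)
    (q : Fin m → Option (Fin s)) (J : Fin (A q).card → Fin n) :
    pull (fromBlocks 1 0 0 R) t (mk q J) = pull R (sl q t) J := by
  unfold pull
  rw [Pool.Agent.W565.K3.Ext.sum_mk, Finset.sum_eq_single q]
  · refine Finset.sum_congr rfl fun K' _ => ?_
    have h1 : ∏ j, (fromBlocks 1 0 0 R : Matrix (Fin s ⊕ Fin n) (Fin s ⊕ Fin n) K)
        (mk q K' j) (mk q J j) = ∏ i, R (K' i) (J i) := by
      rw [prod_split q, Finset.prod_eq_one, one_mul]
      · refine Finset.prod_congr rfl fun i _ => ?_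
        rw [mk_ee, mk_ee]
        rfl
      · intro j hj
        rw [Finset.mem_filter] at hj
        obtain ⟨a, ha⟩ := Option.ne_none_iff_exists'.1 hj.2
        rw [mk_some K' ha, mk_some J ha]
        simp
    rw [h1]
    rfl
  · intro q' _ hq'
    refine Finset.sum_eq_zero fun K' _ => ?_
    have : ∃ j, q' j ≠ q j := by
      by_contra hcon
      push Not at hcon
      exact hq' (funext hcon)
    obtain ⟨j, hj⟩ := this
    rw [Finset.prod_eq_zero (Finset.mem_univ j), zero_mul]
    cases h1 : q' j with
    | some a =>
      rw [mk_some K' h1]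
      cases h2 : q j with
      | some b =>
        rw [mk_some J h2]
        have hab : a ≠ b := by
          intro hab
          apply hj
          rw [h1, h2, hab]
        simp [hab]
      | none =>
        rw [mk_none J h2]
        simp
    | none =>
      rw [mk_none K' h1]
      cases h2 : q j with
      | some b =>
        rw [mk_some J h2]
        simp
      | none =>
        exact absurd (h1.trans h2.symm) hj
  · intro h0
    exact absurd (Finset.mem_univ _) h0

theorem mk_update (q : Fin m → Option (Fin s)) (J : Fin (A q).card → Fin n)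
    (i : Fin (A q).card) (b : Fin n) :
    Function.update (mk q J) (ee q i) (Sum.inr b) = mk q (Function.update J i b) := by
  funext j
  cases h : q j with
  | some a =>
    have h1 : j ≠ ee q i := by
      intro h'
      rw [h', q_ee i] at h
      exact absurd h (by simp)
    rw [Function.update_of_ne h1, mk_some _ h, mk_some _ h]
  | none =>
    obtain ⟨i', rfl⟩ : ∃ i' : Fin (A q).card, ((ee q i' : A q) : Fin m) = j :=
      ⟨(ee q).symm ⟨j, (mem_A q j).2 h⟩, by simp⟩
    rw [mk_ee]
    by_cases hi : i' = i
    · subst hi
      rw [Function.update_self, Function.update_self]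
    · rw [Function.update_of_ne hi, Function.update_of_ne, mk_ee]
      intro h'
      exact hi ((ee q).injective (Subtype.ext h'))

theorem act_mk (y : Matrix (Fin n) (Fin n) K) (t : (Fin m → Fin s ⊕ Fin n) → K)
    (q : Fin m → Option (Fin s)) (J : Fin (A q).card → Fin n) :
    actK (fromBlocks 0 0 0 y) t (mk q J) = actK y (sl q t) J := by
  unfold actK
  rw [sum_split q, Finset.sum_eq_zero, zero_add]
  · refine Finset.sum_congr rfl fun i _ => ?_
    rw [mk_ee, Fintype.sum_sum_type]
    have h1 : ∑ x : Fin s, (fromBlocks 0 0 0 y : Matrix (Fin s ⊕ Fin n) (Fin s ⊕ Fin n) K)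
        (Sum.inl x) (Sum.inr (J i)) * t (Function.update (mk q J) (ee q i) (Sum.inl x)) = 0 := by
      refine Finset.sum_eq_zero fun x _ => ?_
      simp
    rw [h1, zero_add]
    refine Finset.sum_congr rfl fun b _ => ?_
    rw [mk_update]
    rfl
  · intro j hj
    rw [Finset.mem_filter] at hj
    obtain ⟨a, ha⟩ := Option.ne_none_iff_exists'.1 hj.2
    refine Finset.sum_eq_zero fun l _ => ?_
    rw [mk_some J ha]
    cases l with
    | inl x => simp
    | inr x => simp

theorem tsl : S_tsl := by
  intro K _ Γ _ _ n s m T t
  have h1 : IsTate (T.ρS s) t ↔ ∀ q : Fin m → Option (Fin s), IsTate T.ρ (sl q t) := by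
    constructor
    · rintro ⟨U, hU, h⟩ q
      refine ⟨U, hU, fun g hg => ?_⟩
      funext J
      rw [← pull_mk (T.ρ g) t q J]
      have := congrFun (h g hg) (mk q J)
      exact this
    · intro h
      choose U hU h using h
      refine ⟨⨅ q, U q, ?_, fun g hg => ?_⟩
      · rw [Subgroup.coe_iInf]
        exact isOpen_iInter_of_finite hU
      · funext I
        obtain ⟨K', hK'⟩ := exists_mk I rfl
        have h2 := congrFun (h (pat I) g (Subgroup.mem_iInf.1 hg (pat I))) K'
        rw [← pull_mk (T.ρ g) t (pat I) K'] at h2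
        unfold sl at h2
        rw [hK'] at h2
        exact h2
  rw [h1]
  constructor
  · intro h y hy
    funext I
    obtain ⟨K', hK'⟩ := exists_mk I rfl
    have h2 := congrFun (((T.tate _ _).1 (h (pat I))) y hy) K'
    rw [← act_mk y t (pat I) K', hK'] at h2
    exact h2
  · intro h q
    refine (T.tate _ _).2 fun y hy => ?_
    funext J
    rw [← act_mk y t q J]
    exact congrFun (h y hy) (mk q J)

end

end Pool.Agent.W160.TP.TSL
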